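import Mathlib
import Pool.Agent.helper72.CJ.Theta

/-!
# The universal stability condition `valT` and the stability of the charts
-/

namespace Pool.Agent.helper72.CJ

open Finset

theorem delta_compl (A : Finset (Fin 6)) : delta A + delta Aᶜ = 1 := by
  revert A
  decide +kernel

theorem delta_zero_or_one (A : Finset (Fin 6)) : delta A = 0 ∨ delta A = 1 := by
  unfold delta
  split_ifs <;> simp

theorem card_of_delta (A : Finset (Fin 6)) (h : delta A = 1) : 3 ≤ A.card := by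
  revert A
  decide +kernel

theorem valT_compl : ∀ (t h h' : ℕ) (A : Finset (Fin 6)), 1 ≤ t → h + h' + t = 2 + 1 →
    2 < 2 * h + t + A.card → 2 < 2 * h' + t + Aᶜ.card →
    valT t h A + valT t h' Aᶜ = 4 + 1 := by
  intro t h h' A ht hh _ _
  have hc : A.card + Aᶜ.card = 6 := by
    simp
  have hc' : (A.card : ℤ) + (Aᶜ.card : ℤ) = 6 := by exact_mod_cast hc
  have hd := delta_compl A
  have h0 : (0 ∈ A ∧ 0 ∉ Aᶜ) ∨ (0 ∉ A ∧ 0 ∈ Aᶜ) := by
    by_cases h : (0 : Fin 6) ∈ A <;> simp [h]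
  obtain rfl | rfl | rfl : t = 1 ∨ t = 2 ∨ t = 3 := by omega
  · obtain ⟨rfl, rfl⟩ | ⟨rfl, rfl⟩ | ⟨rfl, rfl⟩ : (h = 0 ∧ h' = 2) ∨ (h = 1 ∧ h' = 1) ∨
      (h = 2 ∧ h' = 0) := by omega
    · simp [valT]
    · rcases h0 with ⟨h1, h2⟩ | ⟨h1, h2⟩ <;> simp only [valT] <;> simp [h1, h2]
    · simp [valT]
  · obtain ⟨rfl, rfl⟩ | ⟨rfl, rfl⟩ : (h = 0 ∧ h' = 1) ∨ (h = 1 ∧ h' = 0) := by omega
    · simp only [valT]
      simp
      omega
    · simp only [valT]
      simp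
      omega
  · simp only [valT]
    simp
    omega

theorem valT_tri : ∀ (a b c h₁ h₂ h₃ : ℕ) (A₁ A₂ A₃ : Finset (Fin 6)), 1 ≤ a → 1 ≤ b → 1 ≤ c →
    h₁ + h₂ + h₃ + a + b + c = 2 + 2 →
    Disjoint A₁ A₂ → Disjoint A₁ A₃ → Disjoint A₂ A₃ → A₁ ∪ A₂ ∪ A₃ = Finset.univ →
    2 < 2 * h₁ + (a + b) + A₁.card → 2 < 2 * h₂ + (a + c) + A₂.card →
    2 < 2 * h₃ + (b + c) + A₃.card →
    valT (a + b) h₁ A₁ + valT (a + c) h₂ A₂ + valT (b + c) h₃ A₃ = 4 + 1 ∨
      valT (a + b) h₁ A₁ + valT (a + c) h₂ A₂ + valT (b + c) h₃ A₃ = 4 + 2 := by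
  intro a b c h₁ h₂ h₃ A₁ A₂ A₃ ha hb hc hs h12 h13 h23 hU s1 s2 s3
  have hcard : A₁.card + A₂.card + A₃.card = 6 := by
    have h1 : (A₁ ∪ A₂ ∪ A₃).card = 6 := by rw [hU]; simp
    rw [Finset.card_union_of_disjoint, Finset.card_union_of_disjoint h12] at h1
    · exact h1
    · rw [Finset.disjoint_union_left]
      exact ⟨h13, h23⟩
  have d1 := delta_zero_or_one A₁
  have d2 := delta_zero_or_one A₂
  have d3 := delta_zero_or_one A₃
  have c1 := card_of_delta A₁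
  have c2 := card_of_delta A₂
  have c3 := card_of_delta A₃
  obtain ⟨rfl, rfl, rfl, hh⟩ | ⟨rfl, rfl, rfl, rfl, rfl, rfl⟩ | ⟨rfl, rfl, rfl, rfl, rfl, rfl⟩ |
      ⟨rfl, rfl, rfl, rfl, rfl, rfl⟩ : (a = 1 ∧ b = 1 ∧ c = 1 ∧ h₁ + h₂ + h₃ = 1) ∨
      (a = 2 ∧ b = 1 ∧ c = 1 ∧ h₁ = 0 ∧ h₂ = 0 ∧ h₃ = 0) ∨
      (a = 1 ∧ b = 2 ∧ c = 1 ∧ h₁ = 0 ∧ h₂ = 0 ∧ h₃ = 0) ∨
      (a = 1 ∧ b = 1 ∧ c = 2 ∧ h₁ = 0 ∧ h₂ = 0 ∧ h₃ = 0) := by omega
  · left
    simp only [valT]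
    obtain ⟨rfl, rfl, rfl⟩ | ⟨rfl, rfl, rfl⟩ | ⟨rfl, rfl, rfl⟩ : (h₁ = 1 ∧ h₂ = 0 ∧ h₃ = 0) ∨
      (h₁ = 0 ∧ h₂ = 1 ∧ h₃ = 0) ∨ (h₁ = 0 ∧ h₂ = 0 ∧ h₃ = 1) := by omega
    · simp
      omega
    · simp
      omega
    · simp
      omega
  · simp only [valT]
    simp
    omega
  · simp only [valT]
    simp
    omega
  · simp only [valT]
    simp
    omega

theorem stable_chart (σ : FineV 2 6 4) (hσ : σ.val = valT) {k : Type} [Field k]
    (C : Curve k (Fin 8) (Fin 9) 6) (hs : C.src = srcT)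
    (ht : C.tgt = tgtT) (hm : C.mark = markT) (D : Fin 8 → ℤ) (f₁ f₂ : Flag)
    (h : f₁.1 ≠ f₂.1) (h0 : OkS D []) (h1 : OkS D [f₁]) (h2 : OkS D [f₂])
    (h12 : OkS D [f₁, f₂]) {A : Type} [CommRing A] (x y : A) :
    Stable σ C (chart D f₁ f₂ h x y) := by
  intro K _ f
  obtain ⟨S, hS, hok⟩ : ∃ S : List Flag, (∀ g : Flag, g ∈ S ↔
      (f (if g = f₁ then x else if g = f₂ then y else 1) = 0)) ∧ OkS D S := by
    have hne : f₂ ≠ f₁ := fun e => h (by rw [e])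
    by_cases hx : f x = 0
    · by_cases hy : f y = 0
      · refine ⟨[f₁, f₂], fun g => ?_, h12⟩
        by_cases g1 : g = f₁
        · simp [g1, hx]
        · by_cases g2 : g = f₂
          · subst g2
            simp [g1, hy]
          · simp [g1, g2]
      · refine ⟨[f₁], fun g => ?_, h1⟩
        by_cases g1 : g = f₁
        · simp [g1, hx]
        · by_cases g2 : g = f₂
          · subst g2
            simp [g1, hy]
          · simp [g1, g2]
    · by_cases hy : f y = 0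
      · refine ⟨[f₂], fun g => ?_, h2⟩
        by_cases g1 : g = f₁
        · subst g1
          simp [hx, Ne.symm hne]
        · by_cases g2 : g = f₂
          · subst g2
            simp [g1, hy]
          · simp [g1, g2]
      · refine ⟨[], fun g => ?_, h0⟩
        by_cases g1 : g = f₁
        · subst g1
          simp [hx]
        · by_cases g2 : g = f₂
          · subst g2
            simp [g1, hy]
          · simp [g1, g2]
  have key : ∀ Y, chi C ((chart D f₁ f₂ h x y).map f) Y = chiC D S Y := by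
    intro Y
    unfold chi chiC
    refine congrArg₂ _ rfl (Finset.sum_congr rfl fun e _ => ?_)
    have ha : ((chart D f₁ f₂ h x y).map f).a e = 0 ↔ (e, false) ∈ S := (hS (e, false)).symm
    have hb : ((chart D f₁ f₂ h x y).map f).b e = 0 ↔ (e, true) ∈ S := (hS (e, true)).symm
    rw [hs, ht]
    simp only [ha, hb]
  refine ⟨by rw [key]; exact hok.1, fun Y hY hY' => ?_⟩
  rw [key]
  have hb : σ.bound C Y = boundT Y := by
    unfold FineV.bound boundT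
    rw [hσ, hs, ht, hm]
  rw [hb]
  refine hok.2 Y ?_ ?_
  · unfold Conn at hY
    rw [hs, ht] at hY
    exact hY
  · unfold Conn at hY'
    rw [hs, ht] at hY'
    exact hY'

end Pool.Agent.helper72.CJ
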