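import Mathlib
import Pool.Agent.helper72.CJ.Theta

/-!
# The finite check: all charts used consist of stable sheaves
-/

namespace Pool.Agent.helper72.CJ

open Finset

namespace Chk

/-- The set with characteristic bits `m`. -/
def fs (m : ℕ) : Finset (Fin 8) := univ.filter fun v => m.testBit v = true

theorem mem_fs (m : ℕ) (v : Fin 8) : v ∈ fs m ↔ m.testBit v = true := by simp [fs]

theorem exists_fs (Y : Finset (Fin 8)) : ∃ m < 256, Y = fs m := by
  classical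
  refine ⟨Nat.ofBits (fun v : Fin 8 => decide (v ∈ Y)), ?_, ?_⟩
  · exact Nat.ofBits_lt_two_pow _
  · ext v
    rw [mem_fs, Nat.testBit_ofBits_lt _ _ v.2]
    simp

theorem compl_fs (m : ℕ) : (fs m)ᶜ = fs (255 ^^^ m) := by
  ext v
  rw [Finset.mem_compl, mem_fs, mem_fs, Nat.testBit_xor]
  have h : Nat.testBit 255 v = true := by
    revert v
    decide
  rw [h]
  simp

/-- The pairs of end points of the nodes. -/
def edges : List (ℕ × ℕ) :=
  [(0, 1), (1, 2), (2, 7), (0, 3), (3, 4), (4, 7), (0, 5), (5, 6), (6, 7)]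

/-- One step of a search. -/
def step (m z : ℕ) : ℕ :=
  edges.foldl (fun z e => if m.testBit e.1 && m.testBit e.2 && (z.testBit e.1 || z.testBit e.2)
    then z ||| (1 <<< e.1) ||| (1 <<< e.2) else z) z

/-- The connected component of the first element. -/
def comp (m : ℕ) : ℕ :=
  step m (step m (step m (step m
    (if m.testBit 0 then 1 else if m.testBit 1 then 2 else if m.testBit 2 then 4 else
      if m.testBit 3 then 8 else if m.testBit 4 then 16 else if m.testBit 5 then 32 else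
      if m.testBit 6 then 64 else 128))))

/-- `z` witnesses that the set `m` is empty or not connected. -/
def Bad (m z : ℕ) : Prop :=
  (∀ v : Fin 8, m.testBit v = false) ∨
    ((∀ v : Fin 8, z.testBit v = true → m.testBit v = true) ∧ (∃ v : Fin 8, z.testBit v = true) ∧
      (∃ v : Fin 8, z.testBit v = false ∧ m.testBit v = true) ∧
      ∀ e : Fin 9, ¬ ((z.testBit (srcT e) = true ∧ m.testBit (tgtT e) = true ∧
        z.testBit (tgtT e) = false) ∨ (z.testBit (tgtT e) = true ∧ m.testBit (srcT e) = true ∧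
        z.testBit (srcT e) = false)))

instance (m z : ℕ) : Decidable (Bad m z) := by
  unfold Bad
  infer_instance

theorem not_conn {m z : ℕ} (h : Bad m z) : ¬ ConnT (fs m) := by
  rintro ⟨h0, h1⟩
  rcases h with h | ⟨ha, hb, hc, hd⟩
  · obtain ⟨v, hv⟩ := h0
    rw [mem_fs, h v] at hv
    exact absurd hv (by simp)
  · obtain ⟨v, hv⟩ := hb
    obtain ⟨w, hw, hw'⟩ := hc
    obtain ⟨e, he⟩ := h1 (fs z) (fun v hv => (mem_fs m v).2 (ha v ((mem_fs z v).1 hv)))
      ⟨v, (mem_fs z v).2 hv⟩ (fun e => by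
        have := (mem_fs m w).2 hw'
        rw [← e, mem_fs, hw] at this
        exact absurd this (by simp))
    refine hd e ?_
    simp only [Finset.mem_sdiff, mem_fs, Bool.not_eq_true] at he
    exact he

/-- The bounds. -/
def tab : List ℤ :=
  [0, 0, 1, 1, 1, 0, 2, 2, 1, 1, 0, 2, 0, 0, 0, 2, 1, 0, 0, 0, 0, 0, 0, 0, 2, 2, 0, 3, 0, 0, 0,
   3, 1, 1, 0, 2, 0, 0, 0, 3, 0, 2, 0, 2, 0, 0, 0, 3, 0, 0, 0, 0, 0, 0, 0, 0, 0, 2, 0, 3, 0, 0,
   0, 4, 1, 0, 0, 0, 0, 0, 0, 0, 0, 0, 0, 0, 0, 0, 0, 0, 0, 0, 0, 0, 0, 0, 0, 0, 0, 0, 0, 0, 0,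
   0, 0, 0, 2, 2, 0, 2, 0, 0, 0, 3, 0, 3, 0, 3, 0, 0, 0, 4, 0, 0, 0, 0, 0, 0, 0, 0, 0, 3, 0, 4,
   0, 0, 0, 5, 0, 0, 0, 0, 1, 0, 2, 0, 0, 0, 0, 0, 0, 0, 0, 0, 1, 0, 0, 0, 2, 0, 2, 0, 2, 0, 0,
   0, 3, 0, 3, 3, 0, 0, 0, 0, 0, 0, 0, 0, 0, 0, 0, 0, 0, 0, 0, 0, 0, 0, 0, 0, 0, 0, 0, 0, 0, 0,
   0, 0, 0, 0, 0, 4, 1, 0, 0, 0, 2, 0, 3, 0, 0, 0, 0, 0, 0, 0, 0, 0, 2, 0, 0, 0, 3, 0, 3, 0, 2,
   0, 0, 0, 3, 0, 4, 4, 2, 0, 0, 0, 2, 0, 3, 3, 0, 0, 0, 0, 0, 0, 0, 4, 3, 0, 0, 0, 3, 0, 4, 4,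
   3, 3, 0, 4, 4, 4, 5, 0]

def bnd (m : ℕ) : ℤ :=
  valT (univ.filter fun e : Fin 9 => ¬ (m.testBit (srcT e) = m.testBit (tgtT e))).card
    ((univ.filter fun e : Fin 9 => m.testBit (srcT e) = true ∧ m.testBit (tgtT e) = true).card + 1 -
      (univ.filter fun v : Fin 8 => m.testBit v = true).card)
    (univ.filter fun i : Fin 6 => m.testBit (markT i) = true)

theorem bnd_eq (m : ℕ) : boundT (fs m) = bnd m := by
  unfold boundT bnd
  congr 1
  · congr 1
    ext e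
    simp only [Finset.mem_filter, mem_fs, Finset.mem_univ, true_and]
    cases m.testBit (srcT e) <;> cases m.testBit (tgtT e) <;> simp
  · congr 2
    congr 1
    ext e
    simp only [Finset.mem_filter, mem_fs, Finset.mem_univ, true_and]
  · ext e
    simp only [Finset.mem_filter, mem_fs, Finset.mem_univ, true_and]

def ch (D : Fin 8 → ℤ) (S : List Flag) (m : ℕ) : ℤ :=
  (∑ v : Fin 8, if m.testBit v = true then D v + 1 else 0) -
    ∑ e : Fin 9, if (m.testBit (srcT e) = true ∧ m.testBit (tgtT e) = true) ∨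
      (m.testBit (srcT e) = true ∧ m.testBit (tgtT e) = false ∧ (e, false) ∈ S) ∨
      (m.testBit (srcT e) = false ∧ m.testBit (tgtT e) = true ∧ (e, true) ∈ S) then 1 else 0

theorem ch_eq (D : Fin 8 → ℤ) (S : List Flag) (m : ℕ) : chiC D S (fs m) = ch D S m := by
  unfold chiC ch
  congr 1
  · rw [fs, Finset.sum_filter]
  · simp only [mem_fs, Bool.not_eq_true]

theorem tab_spec : ∀ m < 256, Bad m (comp m) ∨ Bad (255 ^^^ m) (comp (255 ^^^ m)) ∨
    bnd m ≤ tab.getD m 0 := by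
  decide +kernel

/-- The sheaves to be checked. -/
def pairs : List ((Fin 8 → ℤ) × List Flag) :=
  [(D1, []), (D1, [(2, true)]), (D1, [(5, true)]), (D1, [(2, true), (5, true)]),
   (D1, [(6, true)]), (D1, [(5, true), (6, true)]), (D1, [(4, false)]),
   (D1, [(6, true), (4, false)]), (D1, [(2, true), (4, false)]), (D2, []), (D2, [(2, true)]),
   (D2, [(8, true)]), (D2, [(2, true), (8, true)]), (D2, [(3, true)]),
   (D2, [(2, true), (3, true)]), (D2, [(1, false)]), (D2, [(8, true), (1, false)]), (D3, []),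
   (D3, [(5, false)]), (D3, [(2, true)]), (D3, [(5, false), (2, true)]), (D3, [(6, true)]),
   (D3, [(5, false), (6, true)]), (D3, [(8, false)]), (D3, [(8, false), (2, true)]),
   (D3, [(1, false)]), (D3, [(8, false), (1, false)]), (D4, []), (D4, [(5, true)]),
   (D4, [(8, true)]), (D4, [(5, true), (8, true)]), (D4, [(0, true)]),
   (D4, [(8, true), (0, true)]), (D4, [(7, false)]), (D4, [(5, true), (7, false)]), (D5, []),
   (D5, [(8, false)]), (D5, [(5, true)]), (D5, [(8, false), (5, true)]), (D5, [(0, true)]),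
   (D5, [(8, false), (0, true)]), (D5, [(2, false)]), (D5, [(2, false), (5, true)]),
   (D5, [(4, false)]), (D5, [(2, false), (4, false)]), (D6, []), (D6, [(2, false)]),
   (D6, [(8, true)]), (D6, [(2, false), (8, true)]), (D6, [(3, true)]),
   (D6, [(2, false), (3, true)]), (D6, [(5, false)]), (D6, [(5, false), (8, true)]),
   (D6, [(7, false)]), (D6, [(5, false), (7, false)])]

theorem pairs_spec : ∀ m < 256, Bad m (comp m) ∨ Bad (255 ^^^ m) (comp (255 ^^^ m)) ∨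
    ∀ ds ∈ pairs, tab.getD m 0 ≤ ch ds.1 ds.2 m := by
  decide +kernel

theorem pairs_univ : ∀ ds ∈ pairs, ch ds.1 ds.2 255 = 4 := by
  decide +kernel

theorem okS (ds : (Fin 8 → ℤ) × List Flag) (h : ds ∈ pairs) : OkS ds.1 ds.2 := by
  constructor
  · have h1 := pairs_univ ds h
    rw [← ch_eq] at h1
    have h2 : fs 255 = univ := by decide +kernel
    rw [h2] at h1
    exact h1
  · intro Y hY hY'
    obtain ⟨m, hm, rfl⟩ := exists_fs Y
    rw [compl_fs] at hY'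
    have h1 := tab_spec m hm
    have h2 := pairs_spec m hm
    rcases h1 with h1 | h1 | h1
    · exact absurd hY (not_conn h1)
    · exact absurd hY' (not_conn h1)
    · rcases h2 with h2 | h2 | h2
      · exact absurd hY (not_conn h2)
      · exact absurd hY' (not_conn h2)
      · rw [bnd_eq, ch_eq]
        exact h1.trans (h2 ds h)

end Chk

/-- `Ok` from the list of checked sheaves. -/
theorem ok_of_pairs {D : Fin 8 → ℤ} {f₁ f₂ : Flag} (h : f₁.1 ≠ f₂.1)
    (hd : ((ray f₁).1 * (ray f₂).2 - (ray f₁).2 * (ray f₂).1) ^ 2 = 1)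
    (h0 : (D, []) ∈ Chk.pairs) (h1 : (D, [f₁]) ∈ Chk.pairs) (h2 : (D, [f₂]) ∈ Chk.pairs)
    (h3 : (D, [f₁, f₂]) ∈ Chk.pairs) : Ok D f₁ f₂ :=
  ⟨h, hd, Chk.okS _ h0, Chk.okS _ h1, Chk.okS _ h2, Chk.okS _ h3⟩

theorem ok_all :
    (Ok D1 (2, true) (5, true) ∧ Ok D1 (5, true) (6, true) ∧ Ok D1 (6, true) (4, false) ∧
      Ok D1 (2, true) (4, false)) ∧
    (Ok D2 (2, true) (8, true) ∧ Ok D2 (2, true) (3, true) ∧ Ok D2 (8, true) (1, false)) ∧
    (Ok D3 (5, false) (2, true) ∧ Ok D3 (5, false) (6, true) ∧ Ok D3 (8, false) (2, true) ∧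
      Ok D3 (8, false) (1, false)) ∧
    (Ok D4 (5, true) (8, true) ∧ Ok D4 (8, true) (0, true) ∧ Ok D4 (5, true) (7, false)) ∧
    (Ok D5 (8, false) (5, true) ∧ Ok D5 (8, false) (0, true) ∧ Ok D5 (2, false) (5, true) ∧
      Ok D5 (2, false) (4, false)) ∧
    (Ok D6 (2, false) (8, true) ∧ Ok D6 (2, false) (3, true) ∧ Ok D6 (5, false) (8, true) ∧
      Ok D6 (5, false) (7, false)) := by
  refine ⟨⟨?_, ?_, ?_, ?_⟩, ⟨?_, ?_, ?_⟩, ⟨?_, ?_, ?_, ?_⟩, ⟨?_, ?_, ?_⟩, ⟨?_, ?_, ?_, ?_⟩,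
    ⟨?_, ?_, ?_, ?_⟩⟩ <;>
  exact ok_of_pairs (by decide) (by decide) (by simp [Chk.pairs]) (by simp [Chk.pairs])
    (by simp [Chk.pairs]) (by simp [Chk.pairs])

end Pool.Agent.helper72.CJ
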