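import Mathlib
import Pool.Agent.helper60.CJ.S1
import Pool.Agent.helper60.CJ.S2

/-!
# Module S: `valT_compl`, `valT_tri`, `stable_chart`, `ok_all`
-/
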